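import Mathlib
import Pool.Agent.Helper278.CEMod
import Pool.Agent.Helper278.CEIter
import Pool.Agent.Helper278.CENeg
import Pool.Agent.Helper278.CEPi
import Pool.Agent.Helper278.CEExist

/-!
# Factors which are not elementarily equivalent, as C*-algebras, to their tracial ultrapowers

The proofs are those of `Pool.Agent.Helper278.CE`, with the group factor replaced by any factor
having two properties.
-/

set_option autoImplicit false
set_option linter.unusedSectionVars false

open scoped InnerProductSpace ComplexOrder Topology BoundedContinuousFunction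
open Filter

namespace Pool.Agent.Y344.CE2

open Pool.Agent.Helper278 Pool.Agent.Helper278.CE

/-- Almost central unitaries of small trace, for pairs. -/
def GamT {H : Type} [NormedAddCommGroup H] [InnerProductSpace ℂ H] [CompleteSpace H]
    {N : VonNeumannAlgebra H} (T : TracialState N) : Prop :=
  ∀ (x y : Elt N) (ε : ℝ), 0 < ε → ∃ w : Elt N, star w * w = 1 ∧ w * star w = 1 ∧
    n2 T.τ (w * x - x * w) < ε ∧ n2 T.τ (w * y - y * w) < ε ∧ ‖T.τ w‖ ≤ (Real.sqrt 2)⁻¹

section gamma

variable {H : Type} [NormedAddCommGroup H] [InnerProductSpace ℂ H] [CompleteSpace H]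
  {N : VonNeumannAlgebra H} {T : TracialState N}
variable {Q : Type} [Ring Q] [StarRing Q] [Algebra ℂ Q] [StarModule ℂ Q]
variable {U : Ultrafilter ℕ} {π : (ℕ →ᵇ Elt N) →⋆ₐ[ℂ] Q} {σ : Q → ℂ}

/-- Nonscalar unitaries commuting with two given elements of the ultrapower of `L(Gr)`. -/
theorem exists_comm_unitary' (hG : GamT T) (hU : ∀ n, {n} ∉ U) (hπ : Helper278.IsTracialUltrapower T.τ U π σ)
    (a b : Q) : ∃ w : Q, star w * w = 1 ∧ w * star w = 1 ∧ w * a = a * w ∧ w * b = b * w ∧
      ∀ c : ℂ, w ≠ c • 1 := by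
  have hS := sigma_trAlg hπ
  obtain ⟨x, rfl⟩ := hπ.surj a
  obtain ⟨y, rfl⟩ := hπ.surj b
  have h1 : ∀ n : ℕ, (0 : ℝ) < 1 / ((n : ℝ) + 1) := fun n => by positivity
  choose w hw1 hw2 hw3 hw4 hw5 using fun n : ℕ => hG (x n) (y n) (1 / ((n : ℝ) + 1)) (h1 n)
  let W : ℕ →ᵇ Elt N := mkB fun n => ⟨w n, Unitary.mem_iff.2 ⟨hw1 n, hw2 n⟩⟩
  have hlim : Tendsto (fun n : ℕ => 1 / ((n : ℝ) + 1)) (U : Filter ℕ) (𝓝 0) := by
    have h2 : (U : Filter ℕ) ≤ atTop := le_atTop_of_nonprincipal hU
    exact tendsto_one_div_add_atTop_nhds_zero_nat.mono_left h2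
  have hu1 : star (π W) * π W = 1 := by
    rw [← map_star, ← map_mul, ← map_one π]
    congr 1
    ext1 n
    exact hw1 n
  have hu2 : π W * star (π W) = 1 := by
    rw [← map_star, ← map_mul, ← map_one π]
    congr 1
    ext1 n
    exact hw2 n
  refine ⟨π W, hu1, hu2, ?_, ?_, ?_⟩
  · rw [← map_mul, ← map_mul, pi_eq_iff hπ]
    exact squeeze_zero (fun n => n2_nonneg _ _) (fun n => (hw3 n).le) hlim
  · rw [← map_mul, ← map_mul, pi_eq_iff hπ]
    exact squeeze_zero (fun n => n2_nonneg _ _) (fun n => (hw4 n).le) hlim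
  · intro c hc
    have h2 : ‖σ (π W)‖ ≤ (Real.sqrt 2)⁻¹ := by
      refine le_of_tendsto (hπ.trace W).norm (Eventually.of_forall fun n => hw5 n)
    have h3 : σ (π W) = c := by
      have : sigmaL hπ (π W) = c := by
        rw [hc, map_smul, hS.one, smul_eq_mul, mul_one]
      exact this
    have h4 : ‖c‖ * ‖c‖ = 1 := by
      have h5 : sigmaL hπ (star (π W) * π W) = 1 := by rw [hu1, hS.one]
      rw [hc, star_smul, star_one, smul_mul_smul_comm, one_mul, map_smul, hS.one, smul_eq_mul,
        mul_one] at h5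
      have h6 := congrArg norm h5
      rwa [norm_mul, norm_star, norm_one] at h6
    rw [h3] at h2
    have h7 : (Real.sqrt 2)⁻¹ * (Real.sqrt 2)⁻¹ = 1 / 2 := by
      rw [← mul_inv, Real.mul_self_sqrt (by norm_num)]
      norm_num
    have h8 := norm_nonneg c
    nlinarith

variable {K : Type} [NormedAddCommGroup K] [InnerProductSpace ℂ K] [CompleteSpace K]

/-- The property that distinguishes the ultrapower from `L(Gr)`. -/
theorem pi_prop' (hG : GamT T) (hU : ∀ n, {n} ∉ U) (hπ : Helper278.IsTracialUltrapower T.τ U π σ)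
    {j : Q →ₗ[ℂ] K} (hd : DenseRange j) (hj : ∀ x y, ⟪j x, j y⟫_ℂ = sigmaL hπ (star x * y))
    (X Y : Elt (MM j)) : ∃ p : Elt (MM j), p * p = p ∧ star p = p ∧ p ≠ 0 ∧ p ≠ 1 ∧
      p * X = X * p ∧ p * Y = Y * p := by
  have h := sigma_trAlg hπ
  have hB := ball_ultra hU hπ
  set e := LmEquiv h hd hj hB with he
  obtain ⟨w, hw1, hw2, hwa, hwb, hwc⟩ := exists_comm_unitary' hG hU hπ (e.symm X) (e.symm Y)
  have hXw : e w * X = X * e w := by
    have h1 : e (w * e.symm X) = e (e.symm X * w) := by rw [hwa]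
    rwa [map_mul e, map_mul e, e.apply_symm_apply] at h1
  have hYw : e w * Y = Y * e w := by
    have h1 : e (w * e.symm Y) = e (e.symm Y * w) := by rw [hwb]
    rwa [map_mul e, map_mul e, e.apply_symm_apply] at h1
  have hu1 : star (e w) * e w = 1 := by rw [← map_star e, ← map_mul e, hw1, map_one]
  have hu2 : e w * star (e w) = 1 := by rw [← map_star e, ← map_mul e, hw2, map_one]
  -- commutation with adjoints
  have hadj : ∀ Z : Elt (MM j), e w * Z = Z * e w → e w * star Z = star Z * e w := by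
    intro Z hZ
    have h1 : star (e w) * Z = Z * star (e w) := by
      calc star (e w) * Z = star (e w) * Z * (e w * star (e w)) := by rw [hu2, mul_one]
        _ = star (e w) * (Z * e w) * star (e w) := by simp only [mul_assoc]
        _ = (star (e w) * e w) * Z * star (e w) := by rw [← hZ]; simp only [mul_assoc]
        _ = _ := by rw [hu1, one_mul]
    have h2 := congrArg star h1
    rw [star_mul, star_mul, star_star] at h2
    exact h2.symm
  let S : Set (K →L[ℂ] K) := Set.centralizer (MM j : Set (K →L[ℂ] K)) ∪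
    {(X : K →L[ℂ] K), star (X : K →L[ℂ] K), (Y : K →L[ℂ] K), star (Y : K →L[ℂ] K)}
  have hS : ∀ t ∈ S, star t ∈ S := by
    rintro t (ht | ht)
    · left
      intro m hm
      have h1 := ht (star m) (star_mem hm)
      have h2 := congrArg star h1
      rw [star_mul, star_mul, star_star] at h2
      exact h2.symm
    · right
      simp only [Set.mem_insert_iff, Set.mem_singleton_iff] at ht ⊢
      rcases ht with rfl | rfl | rfl | rfl
      · right; left; rfl
      · left; exact star_star _
      · right; right; right; rfl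
      · right; right; left; exact star_star _
  have hwS : ∀ t ∈ S, t * (e w : K →L[ℂ] K) = (e w : K →L[ℂ] K) * t := by
    rintro t (ht | ht)
    · exact (ht _ (e w).2).symm
    · simp only [Set.mem_insert_iff, Set.mem_singleton_iff] at ht
      rcases ht with rfl | rfl | rfl | rfl
      · exact (congrArg Subtype.val hXw).symm
      · exact (congrArg Subtype.val (hadj X hXw)).symm
      · exact (congrArg Subtype.val hYw).symm
      · exact (congrArg Subtype.val (hadj Y hYw)).symm
  have hns : ∀ c : ℂ, (e w : K →L[ℂ] K) ≠ c • 1 := by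
    intro c hc
    apply hwc c
    apply e.injective
    have h1 : e (c • (1 : Q)) = c • (1 : Elt (MM j)) := by rw [map_smul, map_one]
    exact (Subtype.ext hc : e w = c • (1 : Elt (MM j))).trans h1.symm
  obtain ⟨p, hpp, hps, hp0, hp1, hpS⟩ := exists_proj S hS _ hwS hns
  have hpM : p ∈ MM j := by
    have h1 : p ∈ Set.centralizer (Set.centralizer (MM j : Set (K →L[ℂ] K))) := by
      intro t ht
      exact hpS t (Or.inl ht)
    rw [VonNeumannAlgebra.centralizer_centralizer] at h1
    exact h1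
  refine ⟨⟨p, hpM⟩, Subtype.ext hpp, Subtype.ext hps, ?_, ?_, ?_, ?_⟩
  · intro h0
    exact hp0 (congrArg Subtype.val h0)
  · intro h0
    exact hp1 (congrArg Subtype.val h0)
  · exact Subtype.ext (hpS _ (Or.inr (Or.inl rfl))).symm
  · exact Subtype.ext (hpS _ (Or.inr (Or.inr (Or.inr (Or.inl rfl))))).symm

end gamma

section negative

variable {H : Type} [NormedAddCommGroup H] [InnerProductSpace ℂ H] [CompleteSpace H]
  {N : VonNeumannAlgebra H}

/-- The pair `a`, `b` almost commutes, in norm, with trivial projections only. -/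
def Rig (a b : Elt N) (δ : ℝ) : Prop :=
  ∀ q : Elt N, q * q = q → star q = q → ‖q * a - a * q‖ ≤ δ → ‖q * b - b * q‖ ≤ δ →
    q = 0 ∨ q = 1

theorem trivial_proj' {a b : Elt N} {δ : ℝ} (hδ : 0 < δ) (hR : Rig a b δ)
    {I : Type*} {P : Type*} [Ring P] [StarRing P] [Algebra ℂ P]
    (U : Ultrafilter I) (π : (I → Elt N) → P) (hπ : IsNormUltrapower U π) (p : P)
    (hpp : p * p = p) (hps : star p = p) (hpa : p * π (fun _ => a) = π (fun _ => a) * p)
    (hpb : p * π (fun _ => b) = π (fun _ => b) * p) : p = 0 ∨ p = 1 := by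
  obtain ⟨x, hx, rfl⟩ := hπ.surj p
  -- a selfadjoint lift
  set y : I → Elt N := fun i => (2 : ℂ)⁻¹ • (x i + star (x i)) with hy
  have hxs : BddFam (fun i => star (x i)) := by
    obtain ⟨C, hC⟩ := hx
    exact ⟨C, fun i => by rw [norm_star]; exact hC i⟩
  have hyb : BddFam y := bdd_smul _ (bdd_add hx hxs)
  have hys : ∀ i, star (y i) = y i := by
    intro i
    show star ((2 : ℂ)⁻¹ • (x i + star (x i))) = (2 : ℂ)⁻¹ • (x i + star (x i))
    rw [star_smul, star_add, star_star, add_comm]
    congr 1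
    rw [star_inv₀]
    congr 1
    exact Complex.conj_ofNat 2
  have hyx : π y = π x := by
    rw [hy, hπ.smul _ _ (bdd_add hx hxs), hπ.add _ _ hx hxs, hπ.star x hx, hps, ← two_smul ℂ,
      smul_smul, inv_mul_cancel₀ two_ne_zero, one_smul]
  rw [← hyx] at hpp hps hpa hpb ⊢
  -- almost idempotent and almost commuting
  have h1 : Tendsto (fun i => ‖y i * y i - y i‖) U (𝓝 0) := by
    rw [← hπ.mul y y hyb hyb, hπ.eq_iff (bdd_mul hyb hyb) hyb] at hpp
    exact hpp
  have h2 : ∀ c : Elt N, π y * π (fun _ => c) = π (fun _ => c) * π y →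
      Tendsto (fun i => ‖y i * c - c * y i‖) U (𝓝 0) := by
    intro c hg
    rw [← hπ.mul _ _ hyb (bdd_const _), ← hπ.mul _ _ (bdd_const _) hyb,
      hπ.eq_iff (bdd_mul hyb (bdd_const _)) (bdd_mul (bdd_const _) hyb)] at hg
    exact hg
  have h3 := h2 a hpa
  have h4 := h2 b hpb
  set C : ℝ := ‖a‖ + ‖b‖ + 1 with hC
  have hC0 : 0 < C := by positivity
  set κ : ℝ := min (1 / 8) (δ / (8 * C)) with hκ
  have hκ0 : 0 < κ := by positivity
  have hκ1 : κ ≤ 1 / 8 := min_le_left _ _
  have hκ2 : 4 * κ * C ≤ δ / 2 := by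
    have h5 : κ ≤ δ / (8 * C) := min_le_right _ _
    rw [le_div_iff₀ (by positivity)] at h5
    linarith
  have h5 : ∀ᶠ i in (U : Filter I), ‖y i‖ ≤ 1 / 2 ∨ ‖1 - y i‖ ≤ 1 / 2 := by
    have e1 := h1.eventually (gt_mem_nhds hκ0)
    have e2 := h3.eventually (gt_mem_nhds (half_pos hδ))
    have e3 := h4.eventually (gt_mem_nhds (half_pos hδ))
    filter_upwards [e1, e2, e3] with i k1 k2 k3
    obtain ⟨q, hqq, hqs, hqn, hqc⟩ := round_proj (y i : H →L[ℂ] H)
      (congrArg Subtype.val (hys i)) κ hκ1 (le_of_lt k1)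
    have hqN : q ∈ N := by
      have e : q ∈ Set.centralizer (Set.centralizer (N : Set (H →L[ℂ] H))) := by
        intro t ht
        exact hqc t (ht _ (y i).2).symm
      rw [VonNeumannAlgebra.centralizer_centralizer] at e
      exact e
    set q' : Elt N := ⟨q, hqN⟩ with hq'
    have hqn' : ‖q' - y i‖ ≤ 2 * κ := hqn
    have hcom : ∀ c : Elt N, ‖c‖ ≤ C → ‖y i * c - c * y i‖ < δ / 2 →
        ‖q' * c - c * q'‖ ≤ δ := by
      intro c hcC hc
      have e1 : q' * c - c * q' = (q' - y i) * c + (y i * c - c * y i) - c * (q' - y i) := by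
        noncomm_ring
      have e2 : ‖(q' - y i) * c‖ ≤ 2 * κ * C :=
        (norm_mul_le _ _).trans (mul_le_mul hqn' hcC (norm_nonneg _) (by positivity))
      have e3 : ‖c * (q' - y i)‖ ≤ C * (2 * κ) :=
        (norm_mul_le _ _).trans (mul_le_mul hcC hqn' (norm_nonneg _) hC0.le)
      rw [e1]
      have e4 := norm_sub_le ((q' - y i) * c + (y i * c - c * y i)) (c * (q' - y i))
      have e5 := norm_add_le ((q' - y i) * c) (y i * c - c * y i)
      linarith
    have haC : ‖a‖ ≤ C := by rw [hC]; linarith [norm_nonneg b]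
    have hbC : ‖b‖ ≤ C := by rw [hC]; linarith [norm_nonneg a]
    rcases hR q' (Subtype.ext hqq) (Subtype.ext hqs) (hcom a haC k2) (hcom b hbC k3) with h | h
    · left
      rw [h, zero_sub, norm_neg] at hqn'
      linarith
    · right
      rw [h] at hqn'
      linarith
  have hsmall : ∀ z : I → Elt N, Tendsto (fun i => ‖z i * z i - z i‖) U (𝓝 0) →
      (∀ᶠ i in (U : Filter I), ‖z i‖ ≤ 1 / 2) → Tendsto (fun i => ‖z i‖) U (𝓝 0) := by
    intro z hz hzb
    have e1 := hz.const_mul 2
    rw [mul_zero] at e1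
    refine squeeze_zero' (Eventually.of_forall fun i => norm_nonneg _) (hzb.mono fun i hi => ?_) e1
    have e2 : ‖z i‖ ≤ ‖z i * z i‖ + ‖z i * z i - z i‖ := by
      have : z i = z i * z i - (z i * z i - z i) := by abel
      conv_lhs => rw [this]
      exact norm_sub_le _ _
    have e3 : ‖z i * z i‖ ≤ ‖z i‖ * ‖z i‖ := norm_mul_le _ _
    have e4 := norm_nonneg (z i)
    nlinarith
  rcases Ultrafilter.eventually_or.1 h5 with h6 | h6
  · left
    rw [hπ.ker y hyb]
    exact hsmall y h1 h6
  · right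
    rw [← hπ.one, eq_comm, hπ.eq_iff (bdd_const 1) hyb]
    refine hsmall (fun i => 1 - y i) ?_ h6
    refine h1.congr fun i => ?_
    congr 1
    noncomm_ring

/-- No norm ultrapower has the property. -/
theorem not_piProp' {a b : Elt N} {δ : ℝ} (hδ : 0 < δ) (hR : Rig a b δ)
    {I : Type*} {P : Type*} [Ring P] [StarRing P] [Algebra ℂ P]
    (U : Ultrafilter I) (π : (I → Elt N) → P) (hπ : IsNormUltrapower U π) : ¬ PiProp P := by
  intro h
  obtain ⟨p, hpp, hps, hp0, hp1, hpa, hpb⟩ := h (π fun _ => a) (π fun _ => b)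
  rcases trivial_proj' hδ hR U π hπ p hpp hps hpa hpb with h | h
  · exact hp0 h
  · exact hp1 h

end negative

universe w

/-- **The criterion.** -/
theorem criterion {H : Type} [NormedAddCommGroup H] [InnerProductSpace ℂ H] [CompleteSpace H]
    {N : VonNeumannAlgebra H} (τ : Elt N → ℂ) (hII0 : IsIIOneFactor N τ)
    (hG : GamT (mkState N τ hII0.normal hII0.trace)) {a b : Elt N} {δ : ℝ} (hδ : 0 < δ)
    (hR : Rig a b δ) (U : Ultrafilter ℕ) (hU : ∀ n, {n} ∉ U) :
    ∃ (K : Type) (_ : NormedAddCommGroup K) (_ : InnerProductSpace ℂ K) (_ : CompleteSpace K)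
      (M : VonNeumannAlgebra K) (σ : Elt M → ℂ) (π : (ℕ → Elt N) → Elt M),
      CE.IsTracialUltrapower τ U π σ ∧ IsIIOneFactor M σ ∧ TracialElemEquiv τ σ ∧
        ¬ CStarElemEquiv.{w} (Elt N) (Elt M) := by
  set T : TracialState N := mkState N τ hII0.normal hII0.trace with hT
  obtain ⟨Q, _, _, _, _, π, φ, hπ⟩ := exists_ultrapower T U
  have hd : IsDiffuse N := diffuse_of_factor T hII0.center hII0.infinite
  have hL : LyapProp T.τ := lyapProp T hd
  obtain ⟨K, _, _, _, j, hj1, hj2⟩ := exists_gns (sigma_trAlg hπ)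
  have hB := ball_ultra hU hπ
  have hII : IsIIOneFactor (MM j) (tauM j) := isIIOne_MM (sigma_trAlg hπ) hj1 hj2 hB
    (central_scalar hπ hL hII0.center) (infinite_Q hπ hII0.infinite)
  set e := LmEquiv (sigma_trAlg hπ) hj1 hj2 hB with he
  have hp := plain_tracial hπ
  refine ⟨K, inferInstance, inferInstance, inferInstance, MM j, tauM j,
    fun x => e (plain π x), ?_, hII, elemEquiv hU hπ hj1 hj2 hII U hU, ?_⟩
  · refine ⟨⟨?_, ?_, ?_, ?_, ?_, ?_, ?_⟩, ?_⟩
    · show e (plain π fun _ => 1) = 1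
      rw [hp.quot.one, map_one]
    · intro x y hx hy
      show e (plain π fun i => x i + y i) = e (plain π x) + e (plain π y)
      rw [hp.quot.add x y hx hy, map_add]
    · intro x y hx hy
      show e (plain π fun i => x i * y i) = e (plain π x) * e (plain π y)
      rw [hp.quot.mul x y hx hy, map_mul]
    · intro c x hx
      show e (plain π fun i => c • x i) = c • e (plain π x)
      rw [hp.quot.smul c x hx, map_smul]
    · intro x hx
      show e (plain π fun i => star (x i)) = star (e (plain π x))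
      rw [hp.quot.star x hx, map_star]
    · intro q
      obtain ⟨x, hx, hxq⟩ := hp.quot.surj (e.symm q)
      exact ⟨x, hx, by rw [hxq, e.apply_symm_apply]⟩
    · intro x hx
      have h1 : e (plain π x) = 0 ↔ plain π x = 0 := by
        constructor
        · intro h
          have := congrArg e.symm h
          rwa [e.symm_apply_apply, map_zero] at this
        · intro h
          rw [h, map_zero]
      exact h1.trans (hp.quot.ker x hx)
    · intro x hx
      have h1 := hp.trace x hx
      have h2 : tauM j (e (plain π x)) = φ (plain π x) := tauM_LmEquiv (sigma_trAlg hπ) hj1 hj2 hB _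
      show Tendsto (fun i => τ (x i)) U (𝓝 (tauM j (e (plain π x))))
      rw [h2]
      exact h1
  · rintro ⟨I, J, U', V', P, R, _, _, _, _, _, _, θ, ρ, hθ, hρ, ⟨e'⟩⟩
    have h1 : PiProp (Elt (MM j)) := fun X Y => pi_prop' hG hU hπ hj1 hj2 X Y
    exact not_piProp' hδ hR U' θ hθ ((piProp_ultra h1 V' ρ hρ).of_equiv e')

end Pool.Agent.Y344.CE2
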